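import Mathlib
import Pool.Agent.R350.GV

/-!
# Products of few primes, arbitrary constants and the logarithms of all primes

Let `ℚ̄` be the field of algebraic numbers, `D ≥ 1` and `r = D ^ 2 + 4 D - 2` (so `r = 3` for `D = 1`).
Let `W` be a `ℚ̄`-space of dimension at most `m` of arbitrary complex numbers.  There is a space `F` of
linear combinations, with algebraic coefficients, of `1` and logarithms of algebraic numbers, of
bounded dimension, which depends only on `W`, and `F = ℚ̄` for `W = ℚ̄`, with the following property.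
For ARBITRARY distinct primes `p_1, …, p_N` and nonzero integers `c (i, j)` and for all but
`C N ^ (n r - δ)` of the `N ^ (n r)` functions `f` the logarithms
`y_i = log ∏_j p_{f (i, j)} ^ c (i, j)` of `n` products of `r` primes are linearly independent over
`ℚ̄` modulo `F`, and if `l_1, …, l_s` are logarithms of primes (or of algebraic numbers, or linear forms
in such logarithms), any number of them, chosen after `f`, and linearly independent over `ℚ̄` modulo
`F` and the `y_i`, then no nonzero polynomial `P (X, Y)` with coefficients in `W`, of degree at most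
`D` in every `X_i` and of total degree at most `1` in the `Y_j`, vanishes at `(y, l)`.

For `W = ℚ̄` the conditions of linear independence are those over `ℚ`, by Baker's theorem.
-/

set_option autoImplicit false

namespace Pool.Agent.Results.MP_d171e3_nt.FewPrimesAllLogs

open Module MvPolynomial

/-- the linear combinations, with algebraic coefficients, of `1` and logarithms of algebraic numbers -/
noncomputable def LogForms : Submodule (algebraicClosure ℚ ℂ) ℂ :=
  Submodule.span (algebraicClosure ℚ ℂ) ({1} ∪ {z : ℂ | IsAlgebraic ℚ (Complex.exp z)})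

/-- `y` is independent modulo `F` and has no relation with coefficients in `W`, of degree at most `D`
in `y`, which is linear in elements of `LogForms` independent modulo `F` and `y` -/
def NoRelation (W F : Submodule (algebraicClosure ℚ ℂ) ℂ) (D : ℕ) {n : ℕ} (y : Fin n → ℂ) : Prop :=
  (∀ c : Fin n → algebraicClosure ℚ ℂ, ∑ i, c i • y i ∈ F → ∀ i, c i = 0) ∧
  ∀ (s : ℕ) (l : Fin s → ℂ), (∀ j, l j ∈ LogForms) →
    (∀ c : Fin s → algebraicClosure ℚ ℂ, ∑ j, c j • l j ∈
      F ⊔ Submodule.span (algebraicClosure ℚ ℂ) (Set.range y) → ∀ j, c j = 0) →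
    ∀ P : MvPolynomial (Fin n ⊕ Fin s) ℂ, (∀ β, P.coeff β ∈ W) →
      (∀ i, P.degreeOf (Sum.inl i) ≤ D) → (∀ β ∈ P.support, ∑ j, β (Sum.inr j) ≤ 1) →
      eval (Sum.elim y l) P = 0 → P = 0

open Classical in
/-- **Main result.** -/
theorem result (n D m : ℕ) (hD : 1 ≤ D) : ∃ δ : ℝ, 0 < δ ∧ ∃ C : ℝ,
    ∀ W : Submodule (algebraicClosure ℚ ℂ) ℂ, Module.Finite (algebraicClosure ℚ ℂ) W →
    finrank (algebraicClosure ℚ ℂ) W ≤ m →
    ∃ F : Submodule (algebraicClosure ℚ ℂ) ℂ, Module.Finite (algebraicClosure ℚ ℂ) F ∧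
    (finrank (algebraicClosure ℚ ℂ) F : ℝ) ≤ C ∧ F ≤ LogForms ∧
    (W ≤ Submodule.span (algebraicClosure ℚ ℂ) {(1 : ℂ)} →
      F = Submodule.span (algebraicClosure ℚ ℂ) {(1 : ℂ)}) ∧
    ∀ (N : ℕ) (p : Fin N → ℕ), (∀ i, (p i).Prime) → Function.Injective p →
    ∀ c : Fin n → Fin (D ^ 2 + 4 * D - 2) → ℤ, (∀ i j, c i j ≠ 0) →
    ((Finset.univ.filter fun f : Fin n → Fin (D ^ 2 + 4 * D - 2) → Fin N =>
      ¬ NoRelation W F D
        (fun i => (Real.log (∏ j, (p (f i j) : ℝ) ^ (c i j)) : ℂ))).card : ℝ) ≤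
      C * (N : ℝ) ^ (((n * (D ^ 2 + 4 * D - 2) : ℕ) : ℝ) - δ) := by
  obtain ⟨E, rfl⟩ : ∃ E, D = E + 1 := ⟨D - 1, by omega⟩
  have hr : (E + 1) ^ 2 + 4 * (E + 1) - 2 = Pool.Agent.R350.nS E := by
    unfold Pool.Agent.R350.nS
    have : (E + 1) ^ 2 + 4 * (E + 1) = E * E + 6 * E + 3 + 2 := by ring
    rw [this, Nat.add_sub_cancel]
  rw [hr]
  obtain ⟨δ, hδ, K, hK, h⟩ := Pool.Agent.R350.few_lin E n m 0
  refine ⟨δ, hδ, K + (((m + 1) * (m + 1 + 0) * (m + 1) + 1 : ℕ) : ℝ), fun W hWf hWm => ?_⟩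
  obtain ⟨h1, h2, h3, h4⟩ := Pool.Agent.R350.exSp_bound Pool.Agent.R350.setup_complex.hyp
    Pool.Agent.R350.setup_complex.one W hWm
  refine ⟨Pool.Agent.R350.exSp Pool.Agent.H301R2.SSE.Lt W, h1, ?_, h3, h4,
    fun N p hp hpi c hc => ?_⟩
  · have : (finrank (algebraicClosure ℚ ℂ)
      (Pool.Agent.R350.exSp Pool.Agent.H301R2.SSE.Lt W) : ℝ) ≤
      (((m + 1) * (m + 1 + 0) * (m + 1) + 1 : ℕ) : ℝ) := by exact_mod_cast h2
    linarith
  have hpos : ∀ i, (0 : ℝ) < (p i : ℝ) := fun i => by exact_mod_cast (hp i).pos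
  have hlog : ∀ i, IsAlgebraic ℚ (Complex.exp ((Real.log (p i) : ℝ) : ℂ)) := fun i => by
    rw [← Complex.ofReal_exp, Real.exp_log (hpos i), Complex.ofReal_natCast]
    exact isAlgebraic_natCast _
  have hli : LinearIndependent ℚ (fun i : Fin N => ((Real.log (p i) : ℝ) : ℂ)) :=
    Pool.Agent.H297R2.linearIndependent_log_prime p hp hpi
  refine (Pool.Agent.R350.npow_final (N := N) (a := n * Pool.Agent.R350.nS E) (K := K) hδ hK
    ?_).trans ?_
  rotate_left
  · gcongr
    have : (0 : ℝ) ≤ (((m + 1) * (m + 1 + 0) * (m + 1) + 1 : ℕ) : ℝ) := Nat.cast_nonneg _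
    linarith
  refine h (algebraicClosure ℚ ℂ) ℂ Pool.Agent.H301R2.SSE.Lt
    Pool.Agent.R350.setup_complex.hyp Pool.Agent.R350.setup_complex.one W hWf hWm 0
    (fun _ => Submodule.zero_mem _) N (fun i => ((Real.log (p i) : ℝ) : ℂ))
    (fun i => Pool.Agent.H301R2.SSE.Lt_log (hlog i))
    (Pool.Agent.R350.li_complex _ hlog hli)
    (fun i j => algebraMap ℚ (algebraicClosure ℚ ℂ) (c i j))
    (fun i j => (map_ne_zero _).2 (by exact_mod_cast hc i j)) _ ?_
  intro f hf hgood
  apply (Finset.mem_filter.1 hf).2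
  have he : (fun a => (0 : Fin n → ℂ) a + ∑ j, (algebraMap ℚ (algebraicClosure ℚ ℂ) (c a j)) •
      ((Real.log (p (f a j)) : ℝ) : ℂ)) =
      fun i => (Real.log (∏ j, (p (f i j) : ℝ) ^ (c i j)) : ℂ) := by
    funext i
    rw [Pi.zero_apply, zero_add, Real.log_prod (fun j _ => (zpow_pos (hpos _) _).ne'),
      Complex.ofReal_sum]
    refine Finset.sum_congr rfl fun j _ => ?_
    rw [Algebra.smul_def, Real.log_zpow, Complex.ofReal_mul, Complex.ofReal_intCast]
    simp
  rw [he] at hgood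
  exact hgood

end Pool.Agent.Results.MP_d171e3_nt.FewPrimesAllLogs
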