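import Mathlib
import Pool.Agent.R351.GD.Win

/-!
# Logarithms of the primes of short windows: relations of degree at most a power of `log N`

For all `q`, `k` there is a number `C` such that for all `δ`, `N`, `H` with `(H + 2) ^ ((δ + 2) ^ C) ≤ N` and all
complex numbers `w_1, …, w_q` there is a set `S` of at most `q + 1` primes with the following property. Let
`p_1, …, p_k` be any distinct primes in `(N, N + H]` which are not in `S`. Then every relation of degree at most `δ`
between `log p_1, …, log p_k`, with coefficients which are polynomials in `w_1, …, w_q` over a number field of degree at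
most `δ`, is trivial. There is no bound for the heights of the coefficients and of the number field, and `C` does
not depend on the `w_j`, on `δ`, on `N` and on `H`.

Here the bound `δ` for the degree of the relation and for the degree of the number field is not fixed. For example
(`q = 0`) in every window `(N, N + H]` with `H + 2 ≤ exp ((log N) ^ (1 / 2))` there is at most one prime such that the
logarithms of any `k` other primes of the window satisfy no nonzero polynomial relation of degree at most
`(log N) ^ (1 / (2 C)) - 2` over any number field of degree at most `(log N) ^ (1 / (2 C)) - 2`. The starting file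
`PrimesInWindows` is the case of fixed degrees, the dependence of the exponent `E` on the degrees is not given there.

Proof. In the theorem `Pool.Agent.Y916.Al.windowP` of the starting library (Siegel's method for the
functions `log (1 + β x)` with unknown constants) the exponent is shown to be at most a power of the degrees
(`Pool.Agent.R351.GD.windowP_exp`). It is applied at `ξ = N` with `β_i = p_i - N` and the constants
`w_1, …, w_q, log N`.
-/

set_option autoImplicit false

namespace Pool.Agent.Results.MP_d171e3_nt.GrowingDegreesInWindows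

/-- **Main result.** -/
theorem result (q k : ℕ) : ∃ C : ℕ, ∀ δ N H : ℕ, (H + 2) ^ ((δ + 2) ^ C) ≤ N → ∀ w : Fin q → ℂ,
    ∃ S : Finset ℕ, S.card ≤ q + 1 ∧
    ∀ p : Fin k → ℕ, Function.Injective p → (∀ i, (p i).Prime ∧ N < p i ∧ p i ≤ N + H ∧ p i ∉ S) →
    ∀ K : IntermediateField ℚ ℂ, FiniteDimensional ℚ K → Module.finrank ℚ K ≤ δ →
    ∀ P : MvPolynomial (Fin q ⊕ Fin k) K, P.totalDegree ≤ δ →
      MvPolynomial.aeval (Sum.elim w fun i => ((Real.log (p i) : ℝ) : ℂ)) P = 0 →
      MvPolynomial.aeval (Sum.elim (fun j => MvPolynomial.C (w j)) MvPolynomial.X) P = (0 : MvPolynomial (Fin k) ℂ) := by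
  classical
  obtain ⟨E', ⟨C, hC⟩, hE1, hE'⟩ := Pool.Agent.R351.GD.windowP_exp k 1 (q + 1) 1 1 1 1
  refine ⟨C, fun δ N H hN' w => ?_⟩
  have hN : (H + 2) ^ E' δ ≤ N := (Nat.pow_le_pow_right (by omega) (hC δ)).trans hN'
  have hE := hE' δ
  set E := E' δ
  have hN1 : 1 ≤ N := (Nat.one_le_pow _ _ (by omega)).trans hN
  have hNR : (0 : ℝ) < N := by exact_mod_cast hN1
  have hNC : (N : ℂ) ≠ 0 := by exact_mod_cast (show N ≠ 0 by omega)
  have hnorm : ‖(N : ℂ)‖ = N := Complex.norm_natCast N
  have hHt : Pool.Agent.Y916.Al.Ht 1 1 (N : ℂ) := by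
    refine ⟨Polynomial.X - Polynomial.C (N : ℤ), Polynomial.X_sub_C_ne_zero _, ?_, fun j => ?_, ?_⟩
    · rw [Polynomial.natDegree_X_sub_C]
    · rw [hnorm, pow_one, Polynomial.coeff_sub, Polynomial.coeff_X, Polynomial.coeff_C]
      have h1 : (1 : ℝ) ≤ N := by exact_mod_cast hN1
      split_ifs with h2 h3 h3
      · omega
      · simpa using h1
      · simp
      · simp
    · rw [map_sub, Polynomial.aeval_X, Polynomial.aeval_C]
      simp
  -- the constants `w` and `log N`
  obtain ⟨S, hS, h⟩ := hE H (N : ℂ) (by
    rw [hnorm]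
    exact_mod_cast hN) hHt (Option (Fin q)) (fun o => o.elim ((Real.log N : ℝ) : ℂ) w) Finset.univ
    (by rw [Finset.card_univ, Fintype.card_option, Fintype.card_fin]) (Pool.Agent.Y916.Om.Dom.univ _)
  -- the exceptional numbers
  set S' : Finset ℕ := (Finset.Ioc N (N + H)).filter fun n => ((n : ℂ) - N) ∈ S with hS'
  refine ⟨S', ?_, ?_⟩
  · refine le_trans ?_ hS
    refine Finset.card_le_card_of_injOn (fun n => (n : ℂ) - N) (fun n hn => ?_) (fun a _ b _ hab => ?_)
    · have h1 := Finset.mem_coe.1 hn
      rw [hS', Finset.mem_filter] at h1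
      exact h1.2
    · have h1 : (a : ℂ) = b := sub_left_injective hab
      exact_mod_cast h1
  intro p hp hpS K hK hKD P hP hP0
  have hβ : ∀ i, ((p i : ℂ) - N) ∉ S ∧ ((p i : ℂ) - N) ≠ 0 ∧ Pool.Agent.Y916.Ari.Adm 1 H ((p i : ℂ) - N) := by
    intro i
    obtain ⟨-, h1, h2, h3⟩ := hpS i
    refine ⟨fun h4 => h3 ?_, ?_, ?_⟩
    · rw [hS', Finset.mem_filter, Finset.mem_Ioc]
      exact ⟨⟨h1, h2⟩, h4⟩
    · rw [sub_ne_zero]
      exact_mod_cast h1.ne'
    · refine ⟨Polynomial.X - Polynomial.C ((p i : ℤ) - N), Polynomial.X_sub_C_ne_zero _, ?_, fun j => ?_, ?_⟩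
      · rw [Polynomial.natDegree_X_sub_C]
      · rw [Polynomial.coeff_sub, Polynomial.coeff_X, Polynomial.coeff_C]
        have h4 : (1 : ℤ) ≤ H := by
          have : 1 ≤ H := by omega
          exact_mod_cast this
        split_ifs with h5 h6 h6
        · omega
        · rw [sub_zero, abs_one]
          exact h4
        · rw [zero_sub, abs_neg, abs_of_nonneg (by
            have : (N : ℤ) < p i := by exact_mod_cast h1
            omega)]
          have : (p i : ℤ) ≤ N + H := by exact_mod_cast h2
          omega
        · rw [sub_zero, abs_zero]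
          omega
      · rw [map_sub, Polynomial.aeval_X, Polynomial.aeval_C]
        simp
  have hinj : Function.Injective fun i => ((p i : ℂ) - N) := by
    intro a b hab
    have h1 : (p a : ℂ) = p b := sub_left_injective hab
    exact hp (by exact_mod_cast h1)
  have hlog : ∀ i, ((Real.log (p i) : ℝ) : ℂ) - (1 : K) * Complex.log (1 + ((p i : ℂ) - N) / N) ∈
      Submodule.span K (insert 1 (Set.range fun o : Option (Fin q) => o.elim ((Real.log N : ℝ) : ℂ) w)) := by
    intro i
    have h1 : (0 : ℝ) < p i := by
      have := (hpS i).2.1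
      exact_mod_cast (show 0 < p i by omega)
    have h2 : (1 : ℂ) + ((p i : ℂ) - N) / N = (((p i : ℝ) / N : ℝ) : ℂ) := by
      push_cast
      field_simp
      ring
    have h3 : ((Real.log (p i) : ℝ) : ℂ) - (1 : K) * Complex.log (1 + ((p i : ℂ) - N) / N) = ((Real.log N : ℝ) : ℂ) := by
      rw [h2, ← Complex.ofReal_log (div_pos h1 hNR).le, Real.log_div h1.ne' hNR.ne']
      push_cast
      ring
    rw [h3]
    exact Submodule.subset_span (Or.inr ⟨none, rfl⟩)
  -- the relation
  have hK' : Module.finrank ℚ K ≤ δ := hKD
  have h1 := h (fun i => (p i : ℂ) - N) hinj hβ K hK hK' (fun i => ((Real.log (p i) : ℝ) : ℂ))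
    (fun i => ⟨1, one_ne_zero, hlog i⟩) (MvPolynomial.rename (Sum.map some id) P)
    ((MvPolynomial.totalDegree_rename_le _ _).trans hP) (by
      rw [MvPolynomial.aeval_rename, ← hP0]
      congr 2
      funext x
      rcases x with x | x <;> rfl)
  rw [MvPolynomial.aeval_rename] at h1
  rw [← h1]
  congr 2
  funext x
  rcases x with x | x <;> rfl

end Pool.Agent.Results.MP_d171e3_nt.GrowingDegreesInWindows
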