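import Mathlib
import Pool.Agent.R351.SU.Gen
import Pool.Agent.R351.SU.NearC

/-!
# Primes and integers close to a product of powers of given primes: `O (log log X)` exceptions

Fix `r` and bounds `δ` for the degrees of the relations and `D` for the degrees of the fields of
coefficients. There is a constant `C` with the following properties. Let `p_1, …, p_r` be any primes
and let `𝒩` be a set of integers `n ≤ X` (for instance of primes) which are prime to `p_1 ⋯ p_r` and close
to a product `s` of powers of `p_1, …, p_r`, in the sense that `0 < |n - s| ≤ n ^ (1 / C)`. Then for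
arbitrary complex numbers `w_1, …, w_q` all but at most `C log log X` of the `n ∈ 𝒩` are such that
`log n` satisfies no nontrivial relation of degree at most `δ` whose coefficients are polynomials in
`w_1, …, w_q` over a number field of degree at most `D`. For `k`-tuples the number of exceptions is at most
`C log log X · |𝒩| ^ (k - 1)`. There is no bound for the heights of the coefficients, and `C` does not
depend on the primes `p_i`, on the numbers `w_j` and on `𝒩`, which can be much larger than the number of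
exceptions (it can have about `X ^ (1 / C)` elements).

For instance, for `r = 1` and `p_1 = 2` one can take for `𝒩` the set of all primes `2 ^ a + c`, or the set of
all odd integers `2 ^ a + c`, with `0 < |c| ≤ 2 ^ (a / (2 C))`, up to `X`.

The proof: the theorem `Pool.Agent.Y916.Al.windowP` of the starting library, with the constants `w`,
`log p_i`, `2 π i`, is applied at points `t = ∏ p_i ^ b_i`; it shows that at most `q + r + 1` of the
`n ∈ 𝒩` with `n = t / h + c`, where `h` is a product of powers of the `p_i` and `|c| h ≤ t ^ (1 / E)`, are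
exceptional. By rounding the exponents, in terms of the weights `log p_i`, one needs only
`O (log log X)` such points `t`.
-/

set_option autoImplicit false

namespace Pool.Agent.Results.MP_d171e3_nt.NearSUnits

open Pool.Agent.R351.SU

/-- `n` is prime to all the `p i`, and `0 < |n - s| ≤ n ^ (1 / C)` for a product `s` of powers of the
numbers `p i`. -/
def Near {r : ℕ} (p : Fin r → ℕ) (C n : ℕ) : Prop :=
  0 < n ∧ (∀ i, n.Coprime (p i)) ∧ ∃ m : Fin r → ℕ, (n : ℤ) ≠ ∏ i, (p i : ℤ) ^ m i ∧
    |(n : ℤ) - ∏ i, (p i : ℤ) ^ m i| ^ C ≤ n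

/-- **Main result.** -/
theorem result (k q r D δ : ℕ) : ∃ C : ℕ, 0 < C ∧ ∀ p : Fin r → ℕ, (∀ i, (p i).Prime) →
    ∀ (w : Fin q → ℂ) (X : ℕ), 16 ≤ X → ∀ N : Finset ℕ, (∀ n ∈ N, n ≤ X ∧ Near p C n) →
    ∃ E : Finset (Fin k → ℕ),
      (E.card : ℝ) ≤ C * Real.log (Real.log X) * (N.card : ℝ) ^ (k - 1) ∧
      ∀ n : Fin k → ℕ, (∀ j, n j ∈ N) → n ∉ E →
      ∀ l : Fin k → ℂ, (∀ j, Complex.exp (l j) = n j) →
      ∀ K : IntermediateField ℚ ℂ, FiniteDimensional ℚ K → Module.finrank ℚ K ≤ D →
      ∀ P : MvPolynomial (Fin q ⊕ Fin k) K, P.totalDegree ≤ δ →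
      MvPolynomial.aeval (Sum.elim w l) P = 0 →
      MvPolynomial.aeval (Sum.elim (fun a => MvPolynomial.C (w a)) MvPolynomial.X) P =
        (0 : MvPolynomial (Fin k) ℂ) := by
  obtain ⟨C, hC, h⟩ := near_count (q + k + 1) r D δ
  refine ⟨(k + 1) * C, by positivity, fun p hp w X hX N hN => ?_⟩
  have hLL := loglog16 hX
  set LL := Real.log (Real.log X) with hLLd
  have hcard := exG_card (k := k) (fun (_ : Fin k) (n : ℕ) => (n : ℂ)) D δ w (fun _ => N) N.card
    ⌊C * LL⌋₊ (fun _ => le_rfl) (fun j w' B hB => by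
      apply Nat.le_floor
      refine h (Option (Fin q ⊕ Fin k)) (by
        rw [Fintype.card_option, Fintype.card_sum, Fintype.card_fin, Fintype.card_fin]) w' p
        (fun i => (hp i).two_le) X hX B fun n hn => ?_
      obtain ⟨h1, h2⟩ := hB n hn
      obtain ⟨h3, h4, h5, m, h6, h7⟩ := hN n h1
      refine ⟨h4, h3, h5, ⟨m, h6, ?_⟩, h2⟩
      have h8 : 1 ≤ ((n : ℤ) - ∏ i, (p i : ℤ) ^ m i).natAbs := Int.natAbs_pos.2 (sub_ne_zero.2 h6)
      refine (Nat.pow_le_pow_right h8 (Nat.le_mul_of_pos_left C (Nat.succ_pos k))).trans ?_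
      have h9 : ((((n : ℤ) - ∏ i, (p i : ℤ) ^ m i).natAbs ^ ((k + 1) * C) : ℕ) : ℤ) ≤ n := by
        push_cast
        exact h7
      exact_mod_cast h9)
  refine ⟨exG (fun (_ : Fin k) (n : ℕ) => (n : ℂ)) D δ w (fun _ => N), ?_, ?_⟩
  · have h1 : ((exG (fun (_ : Fin k) (n : ℕ) => (n : ℂ)) D δ w (fun _ => N)).card : ℝ) ≤
        ((k * ⌊C * LL⌋₊ * N.card ^ (k - 1) : ℕ) : ℝ) := by exact_mod_cast hcard
    refine h1.trans ?_
    push_cast
    refine mul_le_mul_of_nonneg_right ?_ (by positivity)
    have hCL : (0 : ℝ) ≤ C * LL := mul_nonneg (Nat.cast_nonneg _) (by linarith)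
    have h2 : ((⌊C * LL⌋₊ : ℕ) : ℝ) ≤ C * LL := Nat.floor_le hCL
    calc (k : ℝ) * ((⌊C * LL⌋₊ : ℕ) : ℝ) ≤ k * (C * LL) := mul_le_mul_of_nonneg_left h2 (Nat.cast_nonneg _)
      _ ≤ (k + 1) * C * LL := by linarith
  · intro n hn hnE l hl K hK hKD P hP hP0
    exact notExcG (fun (_ : Fin k) (n : ℕ) => (n : ℂ)) D δ w (fun _ => N) n hn hnE l hl K hK hKD P hP hP0

end Pool.Agent.Results.MP_d171e3_nt.NearSUnits
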