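import Mathlib
import Pool.Agent.R351.SlpSum
import Pool.Agent.W245.PB.RealQ

/-!
# Sums of logarithms of primes have no relations which can be computed with few additions

A polynomial is computed with `L` additions if it is one of `G 0, …, G (L - 1)`, where each `G l` is a
sum of two products of powers of the variables, of some given numbers `t o`, of the earlier
polynomials `G 0, …, G (l - 1)` and of an algebraic number. There is no bound for the degrees.

(a) Let `p(a, j, i)`, `a < k`, `j < R`, `i < N`, be primes, distinct for fixed `a`. If `R` is large in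
terms of `g`, `k` and `L`, then for all but `2 k N ^ (k R - 2 ^ (1 - R))` of the `N ^ (k R)` choices
`f(a, j) < N` no nonzero polynomial computed with `L` additions from the variables and the numbers
`t_1, …, t_g` vanishes at the `k` numbers `y_a = log ∏_j p(a, j, f(a, j))`.

(b) For every sequence `Λ` there are `0 = R_0 < R_1 < ⋯` such that for all distinct primes `p_0, p_1, …`
there are sets `S_i` of integers in `[R_i, R_{i+1})` with the following property of the numbers
`y_i = ∑_{j ∈ S_i} log p_j`: no nonzero polynomial in the variables `Y_a, …, Y_{a + k - 1}` computed with at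
most `L` additions from these variables, the numbers `t o` and the numbers `y_i`, `i < a`, vanishes at
`(y_a, …, y_{a + k - 1})`, where `L ≤ Λ i` for `a ≤ i < a + k`.

The proof: differential elimination for short computations with respect to a derivation of `ℂ` whose
constants are the algebraic numbers, Wronskians, Baker's theorem, the theorem of Erdős on boxes.
-/

set_option autoImplicit false

namespace Pool.Agent.Results.MP_d171e3_nt.SumsWithFewAdditions

open Pool.Agent.R351

/-- The polynomials `G 0, …, G (L - 1)` are computed with one addition each: `G l` is the sum of two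
products of powers of the variables, of the numbers `t o`, of the earlier polynomials
`G 0, …, G (l - 1)`, and of an algebraic number. -/
def Computed {g m : ℕ} (t : Fin g → ℂ) (L : ℕ) (G : ℕ → MvPolynomial (Fin m) ℂ) : Prop :=
  ∃ (c : ℕ → Bool → algebraicClosure ℚ ℂ) (u : ℕ → Bool → Fin g → ℕ) (a : ℕ → Bool → Fin m → ℕ)
    (h : ℕ → Bool → ℕ → ℕ), ∀ l < L, G l = ∑ b : Bool,
      MvPolynomial.C ((c l b : ℂ) * ∏ o, t o ^ u l b o) * (∏ i, MvPolynomial.X i ^ a l b i) *
        ∏ l' ∈ Finset.range l, G l' ^ h l b l'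

/-- No nonzero polynomial computed with at most `L` additions vanishes at `y`. -/
def NoShortRelation {g m : ℕ} (t : Fin g → ℂ) (L : ℕ) (y : Fin m → ℂ) : Prop :=
  ∀ G : ℕ → MvPolynomial (Fin m) ℂ, Computed t L G → ∀ j < L, G j ≠ 0 →
    MvPolynomial.eval y (G j) ≠ 0

theorem Computed.cmp {g m : ℕ} {t : Fin g → ℂ} {L : ℕ} {G : ℕ → MvPolynomial (Fin m) ℂ}
    (h : Computed t L G) : Cmp (algebraicClosure ℚ ℂ) (btm m t) L G := by
  obtain ⟨c, u, a, e, h⟩ := h
  refine ⟨c, fun l b j => Sum.elim (u l b) (a l b) j, e, fun l hl => ?_⟩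
  rw [h l hl]
  refine Finset.sum_congr rfl fun b _ => ?_
  rw [Fintype.prod_sum_type, Algebra.smul_def, IsScalarTower.algebraMap_apply
    (algebraicClosure ℚ ℂ) ℂ (MvPolynomial (Fin m) ℂ)]
  unfold btm
  simp only [Sum.elim_inl, Sum.elim_inr, map_mul, map_prod, map_pow, MvPolynomial.algebraMap_eq]
  have h1 : algebraMap (algebraicClosure ℚ ℂ) ℂ (c l b) = (c l b : ℂ) := rfl
  rw [h1]
  ring

theorem of_goodT {g m L : ℕ} {t : Fin g → ℂ} {y : Fin m → ℂ}
    (h : GoodT (algebraicClosure ℚ ℂ) t L y) : NoShortRelation t L y :=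
  fun G hG j hj hG0 h0 => hG0 (h G hG.cmp j hj h0)

open Classical in
/-- **Main result.** -/
theorem result :
    (∀ g k L : ℕ, ∃ R₀ : ℕ, ∀ R ≥ R₀, ∀ (N : ℕ) (p : Fin k → Fin R → Fin N → ℕ),
      (∀ a j i, (p a j i).Prime) → (∀ a, Function.Injective fun x : Fin R × Fin N => p a x.1 x.2) →
      ∀ t : Fin g → ℂ,
        (((Finset.univ : Finset (Fin k → Fin R → Fin N)).filter fun f =>
          ¬ NoShortRelation t L fun a => (Real.log ((∏ j, p a j (f a j) : ℕ) : ℝ) : ℂ)).card : ℝ) ≤
        2 * k * (N : ℝ) ^ (k * R) * (N : ℝ) ^ (-(1 / 2 ^ (R - 1)) : ℝ)) ∧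
    ∀ (g : ℕ) (Λ : ℕ → ℕ), ∃ R : ℕ → ℕ, StrictMono R ∧ R 0 = 0 ∧
      ∀ p : ℕ → ℕ, (∀ i, (p i).Prime) → Function.Injective p → ∀ t : Fin g → ℂ,
      ∃ S : ℕ → Finset ℕ, (∀ i, S i ⊆ Finset.Ico (R i) (R (i + 1))) ∧
        ∀ a k L : ℕ, (∀ i, a ≤ i → i < a + k → L ≤ Λ i) →
          NoShortRelation
            (Fin.append t (fun i : Fin a => ∑ j ∈ S i, (Real.log (p j) : ℂ)) : Fin (g + a) → ℂ) L
            (fun i : Fin k => ∑ j ∈ S (a + i), (Real.log (p j) : ℂ)) := by
  constructor
  · intro g k L
    obtain ⟨R₀, _, hR₀⟩ := sums_tuples k L g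
    refine ⟨R₀, fun R hR N p hp hinj t => ?_⟩
    have hlog : ∀ (a : Fin k) (f : Fin k → Fin R → Fin N),
        (Real.log ((∏ j, p a j (f a j) : ℕ) : ℝ) : ℂ) = ∑ j, (Real.log (p a j (f a j)) : ℂ) := by
      intro a f
      push_cast
      rw [Real.log_prod (fun j _ => by exact_mod_cast (hp a j (f a j)).pos.ne')]
      push_cast
      rfl
    have key := hR₀ R hR N t (fun a j i => (Real.log (p a j i) : ℂ)) (by
      intro a pp qq hpq
      refine Pool.Agent.W245.PB.logLike_complex.indep R (fun j => p a j (pp j))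
        (fun j => p a j (qq j)) (fun j => hp _ _ _) (fun j => hp _ _ _) ?_
      have h2 : (Sum.elim (fun j => p a j (pp j)) (fun j => p a j (qq j)) : Fin R ⊕ Fin R → ℕ) =
          (fun x : Fin R × Fin N => p a x.1 x.2) ∘
            (Sum.elim (fun j => (j, pp j)) (fun j => (j, qq j))) := by
        funext s
        rcases s with j | j <;> rfl
      rw [h2]
      refine (hinj a).comp ?_
      rintro (i | i) (j | j) h
      · simp only [Sum.elim_inl, Prod.mk.injEq] at h
        rw [h.1]
      · simp only [Sum.elim_inl, Sum.elim_inr, Prod.mk.injEq] at h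
        obtain ⟨rfl, h⟩ := h
        exact absurd h (hpq i)
      · simp only [Sum.elim_inl, Sum.elim_inr, Prod.mk.injEq] at h
        obtain ⟨rfl, h⟩ := h
        exact absurd h.symm (hpq i)
      · simp only [Sum.elim_inr, Prod.mk.injEq] at h
        rw [h.1])
    refine le_trans ?_ (key.trans (le_of_eq ?_))
    · have hsub : ((Finset.univ : Finset (Fin k → Fin R → Fin N)).filter fun f =>
          ¬ NoShortRelation t L fun a => (Real.log ((∏ j, p a j (f a j) : ℕ) : ℝ) : ℂ)) ⊆
        (Finset.univ : Finset (Fin k → Fin R → Fin N)).filter (fun f =>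
          ¬ GoodT (algebraicClosure ℚ ℂ) t L (fun a => ∑ j, (Real.log (p a j (f a j)) : ℂ))) := by
        intro f hf
        rw [Finset.mem_filter] at hf ⊢
        refine ⟨Finset.mem_univ _, fun hN => hf.2 ?_⟩
        simp only [hlog]
        exact of_goodT hN
      exact_mod_cast Finset.card_le_card hsub
    · rw [Pool.Agent.H351R3.Sums.sav]
      ring
  · intro g Λ
    obtain ⟨R, hR, hR0, h⟩ := blocks g Λ
    refine ⟨R, hR, hR0, fun p hp hinj t => ?_⟩
    have hli : LinearIndependent ℚ (fun i => (Real.log (p i) : ℂ)) := by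
      rw [linearIndependent_iff_finset_linearIndependent]
      intro s
      exact Pool.Agent.H297R2.linearIndependent_log_prime (fun i : s => p i) (fun i => hp i)
        (fun i j hij => Subtype.ext (hinj hij))
    have halg : ∀ i, IsAlgebraic ℚ (Complex.exp (Real.log (p i) : ℂ)) := by
      intro i
      rw [← Complex.ofReal_exp, Real.exp_log (by exact_mod_cast (hp i).pos)]
      rw [Complex.ofReal_natCast]
      exact isAlgebraic_natCast _
    obtain ⟨S, hS, hgood⟩ := h _ (Pool.Agent.W245.PB.baker_seq _ halg hli) t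
    exact ⟨S, hS, fun a k L hL => of_goodT (hgood a k L hL)⟩

end Pool.Agent.Results.MP_d171e3_nt.SumsWithFewAdditions
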